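import Pool.Agent.Helper94.GA.Goals

/-! Packet TW (MP_d69e80_al): the main analytic lemma. -/

namespace Pool.Agent.Helper19.GA

open Finset Pointwise Filter Topology
open scoped ComplexOrder
open Pool.Agent.Helper11.Gap
open Pool.Agent.Helper94.GA

universe u v

theorem ent_nonneg' {Ω : Type u} {X : Type v} [Fintype Ω] (g : Ω → X) : 0 ≤ ent g := by
  classical
  unfold ent
  rcases isEmpty_or_nonempty Ω with h | h
  · simp
  · have hc : (0 : ℝ) < Fintype.card Ω := by exact_mod_cast Fintype.card_pos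
    rw [sub_nonneg, div_le_iff₀ hc]
    have : ∀ ω ∈ (univ : Finset Ω), Real.log (Nat.card {ω' // g ω' = g ω}) ≤
        Real.log (Fintype.card Ω) := by
      intro ω _
      have h1 : 0 < Nat.card {ω' // g ω' = g ω} := by
        have : Nonempty {ω' // g ω' = g ω} := ⟨⟨ω, rfl⟩⟩
        exact Nat.card_pos
      have h2 : Nat.card {ω' // g ω' = g ω} ≤ Fintype.card Ω := by
        rw [Nat.card_eq_fintype_card]
        exact Fintype.card_subtype_le _
      exact Real.log_le_log (by exact_mod_cast h1) (by exact_mod_cast h2)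
    calc ∑ ω, Real.log (Nat.card {ω' // g ω' = g ω})
        ≤ ∑ _ω : Ω, Real.log (Fintype.card Ω) := sum_le_sum this
      _ = Real.log (Fintype.card Ω) * Fintype.card Ω := by
          rw [sum_const, card_univ, nsmul_eq_mul, mul_comm]

theorem avgEnt_nonneg {K : Type u} [Field K] {C : Type} [Fintype C] (α : K)
    (x : C → K) (n : ℕ) : 0 ≤ avgEnt α x n := by
  unfold avgEnt
  apply div_nonneg
  · exact sum_nonneg fun c _ => ent_nonneg' _
  · positivity

theorem log_ge_quarter {q : ℝ} (h2 : 2 ≤ q) (h8 : q ≤ 8) : q / 4 ≤ Real.log q := by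
  have hl : (0.6931471803 : ℝ) < Real.log 2 := Real.log_two_gt_d9
  have h8' : Real.log 8 = 3 * Real.log 2 := by
    rw [show (8 : ℝ) = 2 ^ 3 by norm_num, Real.log_pow]; norm_num
  have hcc := strictConcaveOn_log_Ioi.concaveOn.2 (show (2 : ℝ) ∈ Set.Ioi (0 : ℝ) by simp)
    (show (8 : ℝ) ∈ Set.Ioi (0 : ℝ) by simp) (show 0 ≤ (8 - q) / 6 by linarith)
    (show 0 ≤ (q - 2) / 6 by linarith) (by ring)
  have he : ((8 - q) / 6) • (2 : ℝ) + ((q - 2) / 6) • (8 : ℝ) = q := by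
    simp only [smul_eq_mul]; ring
  rw [he] at hcc
  simp only [smul_eq_mul, h8'] at hcc
  nlinarith [hcc, hl]

/-- passing from the coefficient `a` to a smaller one -/
theorem pass {f : ℕ → ℝ} {a b B : ℝ} (hb : 0 ≤ b) (hab : b ≤ a) (hf : ∀ n, 0 ≤ f n)
    (h : ∀ n : ℕ, a * ((n : ℝ) - B) ≤ f n) : ∃ B' : ℝ, ∀ n : ℕ, b * ((n : ℝ) - B') ≤ f n := by
  refine ⟨max B 0, fun n => ?_⟩
  rcases le_total (n : ℝ) (max B 0) with hn | hn
  · exact le_trans (mul_nonpos_of_nonneg_of_nonpos hb (by linarith)) (hf n)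
  · calc b * ((n : ℝ) - max B 0) ≤ a * ((n : ℝ) - max B 0) :=
          mul_le_mul_of_nonneg_right hab (by linarith)
      _ ≤ a * ((n : ℝ) - B) :=
          mul_le_mul_of_nonneg_left (by linarith [le_max_left B 0]) (le_trans hb hab)
      _ ≤ f n := h n

theorem grd_set (h2 : GRD_stmt.{u}) (K : Type u) [Field K] (C : Type) [Fintype C]
    [Nonempty C] (α : K) (x : C → K) (hx : ∀ c, x c ≠ 0) (E : Finset ℂ) (hE : E.Nonempty)
    (h1 : ∀ z ∈ E, 1 < ‖z‖) (hσ : ∀ z ∈ E, ∃ σ : K →+* ℂ, σ α = z) :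
    ∃ B : ℝ, ∀ n : ℕ, (Real.log (∏ z ∈ E, ‖z‖) / (∏ z ∈ E, ‖z‖) ^ 2) * ((n : ℝ) - B) ≤
      avgEnt α x n := by
  classical
  have hch : ∀ j : Fin E.card, ∃ σ : K →+* ℂ, σ α = ((E.equivFin.symm j : E) : ℂ) := fun j =>
    hσ _ (E.equivFin.symm j).2
  choose σ hs using hch
  have hprod : ∏ j, ‖σ j α‖ = ∏ z ∈ E, ‖z‖ := by
    have e1 : ∏ j : Fin E.card, ‖σ j α‖ = ∏ j : Fin E.card, ‖((E.equivFin.symm j : E) : ℂ)‖ :=
      prod_congr rfl fun j _ => by rw [hs j]
    rw [e1, Equiv.prod_comp E.equivFin.symm (fun z : E => ‖(z : ℂ)‖)]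
    exact prod_coe_sort E (fun z => ‖z‖)
  have hinj : Function.Injective (fun j => σ j α) := by
    intro i j hij
    simp only [hs] at hij
    exact E.equivFin.symm.injective (Subtype.ext hij)
  obtain ⟨B, hB⟩ := h2 K C α x hx E.card (card_pos.mpr hE) σ hinj
    (fun j => by rw [hs j]; exact h1 _ (E.equivFin.symm j).2)
  rw [hprod] at hB
  exact ⟨B, hB⟩

theorem TW (hBIG : BIG_stmt.{u}) (hGRD : GRD_stmt.{u}) (hEMB : EMB_stmt.{u}) :
    TW_stmt.{u} := by
  classical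
  intro K _ _ hK C _ _ α hα x hx
  obtain ⟨Z, hZ, hM⟩ := hEMB K hK α hα
  set E : Finset ℂ := Z.filter (fun z => 1 < ‖z‖) with hEdef
  have hME : mah α = ∏ z ∈ E, ‖z‖ := by
    rw [hM, hEdef, prod_filter]
    refine prod_congr rfl fun z _ => ?_
    split_ifs with h
    · exact max_eq_right h.le
    · exact max_eq_left (not_lt.mp h)
  have hE1 : ∀ z ∈ E, 1 < ‖z‖ := fun z hz => (mem_filter.mp hz).2
  have hEσ : ∀ z ∈ E, ∃ σ : K →+* ℂ, σ α = z := fun z hz => hZ z (mem_filter.mp hz).1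
  have hM1 : 1 ≤ mah α := by
    rw [hME]
    calc (1 : ℝ) = ∏ _z ∈ E, (1 : ℝ) := by rw [prod_const_one]
      _ ≤ ∏ z ∈ E, ‖z‖ := prod_le_prod (fun _ _ => zero_le_one) (fun z hz => (hE1 z hz).le)
  have hlog : 0 ≤ Real.log (mah α) := Real.log_nonneg hM1
  set b : ℝ := (1 / 8) * min 1 (Real.log (mah α)) with hb
  have hb0 : 0 ≤ b := by
    rw [hb]; exact mul_nonneg (by norm_num) (le_min zero_le_one hlog)
  have hb8 : b ≤ 1 / 8 := by
    rw [hb]; nlinarith [min_le_left 1 (Real.log (mah α))]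
  have hbl : b ≤ (1 / 8) * Real.log (mah α) := by
    rw [hb]; nlinarith [min_le_right 1 (Real.log (mah α))]
  have hf := fun n => avgEnt_nonneg α x n
  by_cases hbig : ∃ z ∈ Z, 2 ≤ ‖z‖
  · obtain ⟨z, hz, hz2⟩ := hbig
    obtain ⟨σ, hσ⟩ := hZ z hz
    refine ⟨0, fun n => ?_⟩
    have := hBIG K C α x hx σ (by rw [hσ]; exact hz2) n
    have hn : (0 : ℝ) ≤ n := Nat.cast_nonneg n
    nlinarith
  push Not at hbig
  have hE2 : ∀ z ∈ E, ‖z‖ < 2 := fun z hz => hbig z (mem_filter.mp hz).1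
  rcases E.eq_empty_or_nonempty with hEe | hEn
  · have : mah α = 1 := by rw [hME, hEe, prod_empty]
    refine ⟨0, fun n => ?_⟩
    have hb00 : b = 0 := by rw [hb, this]; simp
    rw [hb00]; simpa using hf n
  by_cases hs : (mah α) ^ 2 < 2
  · obtain ⟨B, hB⟩ := grd_set hGRD K C α x hx E hEn hE1 hEσ
    refine pass hb0 ?_ hf hB
    rw [← hME]
    have hpos : 0 < (mah α) ^ 2 := by positivity
    rw [le_div_iff₀ hpos]
    nlinarith
  · push Not at hs
    -- minimal subset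
    set P : Finset ℂ → ℝ := fun T => ∏ z ∈ T, ‖z‖ with hP
    have hne : (E.powerset.filter (fun T => 2 ≤ P T ^ 2)).Nonempty :=
      ⟨E, mem_filter.mpr ⟨mem_powerset_self E, by simpa [hP, ← hME] using hs⟩⟩
    obtain ⟨T, hT, hmin⟩ := exists_min_image _ (fun T : Finset ℂ => T.card) hne
    obtain ⟨hTE, hT2⟩ := mem_filter.mp hT
    rw [mem_powerset] at hTE
    have hTn : T.Nonempty := by
      rw [nonempty_iff_ne_empty]
      rintro rfl
      simp [hP] at hT2
    obtain ⟨z, hz⟩ := hTn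
    have hlt : P (T.erase z) ^ 2 < 2 := by
      by_contra hcon
      push Not at hcon
      have := hmin (T.erase z) (mem_filter.mpr
        ⟨mem_powerset.mpr ((erase_subset _ _).trans hTE), hcon⟩)
      have h2 := card_erase_lt_of_mem hz
      omega
    have hPT : P T = ‖z‖ * P (T.erase z) := by
      simp only [hP]
      exact (mul_prod_erase T (fun z => ‖z‖) hz).symm
    have hz2 := hE2 z (hTE hz)
    have hz1 := hE1 z (hTE hz)
    have h8 : P T ^ 2 ≤ 8 := by
      rw [hPT, mul_pow]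
      have : ‖z‖ ^ 2 ≤ 4 := by nlinarith
      nlinarith [sq_nonneg (P (T.erase z)), sq_nonneg ‖z‖]
    have hPpos : 0 < P T := by
      simp only [hP]
      exact prod_pos fun w hw => lt_trans zero_lt_one (hE1 w (hTE hw))
    obtain ⟨B, hB⟩ := grd_set hGRD K C α x hx T ⟨z, hz⟩ (fun w hw => hE1 w (hTE hw))
      (fun w hw => hEσ w (hTE hw))
    refine pass hb0 (le_trans hb8 ?_) hf hB
    change 1 / 8 ≤ Real.log (P T) / P T ^ 2
    rw [le_div_iff₀ (by positivity)]
    have hq := log_ge_quarter hT2 h8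
    rw [Real.log_pow] at hq
    push_cast at hq
    linarith

end Pool.Agent.Helper19.GA
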